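import Mathlib
import Pool.Agent.R603.HE.Build
import Pool.Agent.Helper292.ForceCH

/-!
It is consistent with ZFC that there is a countably compact functional extension.

Some notion of forcing preserves `ω₁` and forces the continuum hypothesis, and the continuum
hypothesis implies that `ℕ` has a functional extension whose `S`-topology is Hausdorff and
countably compact: it is the subspace of `βℕ` of all images of the members of a chain of Hausdorff
ultrafilters of length `ω₁`, increasing in the Rudin-Keisler order, in which every member is a sum
of the preceding ones along a suitably generic ultrafilter.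
-/

namespace Pool.Agent.Results.MP_77d395_lc.ConsistentlyYes

open Pool.Agent.R603.HE

/-- (1) Some notion of forcing forces that `ω₁` is preserved and that the continuum hypothesis
holds. (2) The continuum hypothesis implies that there is a countably compact functional
extension of a set `X` with two distinct elements `0`, `1`. -/
theorem result :
    (∃ (P : Type) (_ : Preorder P), Nonempty P ∧ ∀ p : P,
      p ∈ Pool.Agent.Helper292.ForceCH.OmegaOnePreserved P ∧
      p ∈ Pool.Agent.Helper292.ForceCH.CHHolds P) ∧
    (Cardinal.aleph 1 = Cardinal.continuum.{0} →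
      ∃ (X : Type) (x0 x1 : X) (E : FunExt X x0 x1), x0 ≠ x1 ∧
        @T2Space E.Y E.sTopology ∧ @CountablyCompactSpace E.Y E.sTopology) := by
  refine ⟨?_, fun hCH => ?_⟩
  · obtain ⟨P, i, h1, h2⟩ := Pool.Agent.Helper292.ForceCH.exists_forcing
    exact ⟨P, i, h1, fun p => ⟨(h2 p).1, (h2 p).2.2⟩⟩
  · obtain ⟨E, h1, h2⟩ := exists_funExt hCH
    exact ⟨ℕ, 0, 1, E, Nat.zero_ne_one, h1, h2⟩

end Pool.Agent.Results.MP_77d395_lc.ConsistentlyYes
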